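import Mathlib

/-!
# Project TR, module MINIMAX (helper76 for helper72): Mathlib only
-/

set_option autoImplicit false

namespace Pool.Agent.H76.TR

open Finset

theorem minimax0 (X 𝓕 : Type) [Fintype X] [Nonempty X] (c : 𝓕 → X → ℝ) (C C' : ℝ) (hC : C < C')
    (h : ∀ D : X → ℝ, (∀ x, 0 ≤ D x) → ∑ x, D x = 1 → ∃ f, ∑ x, D x * c f x ≤ C) :
    ∃ (Ω : Type) (_ : Fintype Ω) (μ : Ω → ℝ) (F : Ω → 𝓕), (∀ ω, 0 ≤ μ ω) ∧ ∑ ω, μ ω = 1 ∧
      ∀ x, ∑ ω, μ ω * c (F ω) x ≤ C' := by
  classical
  set U : Set (X → ℝ) := {v | ∀ x, v x < C'} with hU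
  have hUo : IsOpen U := by
    have : U = ⋂ x, {v : X → ℝ | v x < C'} := by
      ext v
      simp [hU]
    rw [this]
    exact isOpen_iInter_of_finite fun x => isOpen_lt (continuous_apply x) continuous_const
  have hUc : Convex ℝ U := by
    intro v hv w hw a b ha hb hab x
    have h1 := hv x
    have h2 := hw x
    simp only [Pi.add_apply, Pi.smul_apply, smul_eq_mul]
    rcases ha.eq_or_lt with h0 | h0
    · rw [← h0] at hab ⊢
      rw [zero_add] at hab
      rw [hab]
      linarith
    · have h3 : a * v x < a * C' := mul_lt_mul_of_pos_left h1 h0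
      have h4 : b * w x ≤ b * C' := mul_le_mul_of_nonneg_left h2.le hb
      have h5 : a * C' + b * C' = C' := by rw [← add_mul, hab, one_mul]
      linarith
  by_cases hdis : Disjoint U (convexHull ℝ (Set.range c))
  · exfalso
    obtain ⟨f, u, hf1, hf2⟩ := geometric_hahn_banach_open hUc hUo (convex_convexHull ℝ _) hdis
    set d : X → ℝ := fun x => f (Pi.single x 1) with hd
    have hfd : ∀ v : X → ℝ, f v = ∑ x, d x * v x := by
      intro v
      have h1 : v = ∑ x, v x • (Pi.single x 1 : X → ℝ) := by
        ext y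
        simp only [Finset.sum_apply, Pi.smul_apply, Pi.single_apply, smul_eq_mul, mul_ite, mul_one,
          mul_zero, Finset.sum_ite_eq, Finset.mem_univ, if_true]
      conv_lhs => rw [h1]
      rw [map_sum]
      refine sum_congr rfl fun x _ => ?_
      rw [map_smul, smul_eq_mul, mul_comm]
    have hconst : C * ∑ x, d x < u := by
      have h1 := hf1 (fun _ => C) (fun x => hC)
      rwa [hfd, ← sum_mul, mul_comm] at h1
    have hd0 : ∀ x, 0 ≤ d x := by
      intro x₀
      by_contra hneg
      push Not at hneg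
      set t : ℝ := (u - C * ∑ x, d x) / (-d x₀) with ht
      have ht0 : 0 ≤ t := div_nonneg (by linarith) (by linarith)
      have h1 := hf1 (fun x => C - (if x = x₀ then t else 0)) (fun x => by
        show C - (if x = x₀ then t else 0) < C'
        split_ifs
        · linarith
        · linarith)
      rw [hfd] at h1
      have h2 : ∑ x, d x * (C - (if x = x₀ then t else 0)) = C * ∑ x, d x - d x₀ * t := by
        simp only [mul_sub, sum_sub_distrib, mul_ite, mul_zero, Finset.sum_ite_eq', Finset.mem_univ,
          if_true]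
        rw [← sum_mul, mul_comm]
      rw [h2] at h1
      have h3 : d x₀ * t = -(u - C * ∑ x, d x) := by
        have hne : d x₀ ≠ 0 := hneg.ne
        rw [ht]
        field_simp
      rw [h3] at h1
      linarith
    have hsum : 0 < ∑ x, d x := by
      rcases (sum_nonneg fun x (_ : x ∈ (univ : Finset X)) => hd0 x).eq_or_lt with h0 | h0
      · exfalso
        have h1 : ∀ x, d x = 0 := fun x =>
          (sum_eq_zero_iff_of_nonneg fun x _ => hd0 x).1 h0.symm x (mem_univ x)
        obtain ⟨g, -⟩ := h (fun _ => 1 / (Fintype.card X : ℝ)) (fun _ => by positivity) (by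
          rw [sum_const, card_univ, nsmul_eq_mul]
          have : (Fintype.card X : ℝ) ≠ 0 := by exact_mod_cast Fintype.card_ne_zero
          field_simp)
        have h2 := hf2 (c g) (subset_convexHull ℝ _ ⟨g, rfl⟩)
        rw [hfd] at h2
        simp only [h1, zero_mul, sum_const_zero] at h2
        rw [← h0, mul_zero] at hconst
        linarith
      · exact h0
    obtain ⟨g, hg⟩ := h (fun x => d x / ∑ x, d x) (fun x => div_nonneg (hd0 x) hsum.le) (by
      rw [← sum_div, div_self hsum.ne'])
    have h2 := hf2 (c g) (subset_convexHull ℝ _ ⟨g, rfl⟩)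
    rw [hfd] at h2
    have h3 : ∑ x, d x / (∑ x, d x) * c g x = (∑ x, d x * c g x) / ∑ x, d x := by
      rw [sum_div]
      exact sum_congr rfl fun x _ => by ring
    rw [h3, div_le_iff₀ hsum] at hg
    linarith
  · rw [Set.not_disjoint_iff] at hdis
    obtain ⟨v, hvU, hvK⟩ := hdis
    obtain ⟨ι, hι, w, z, hw0, hw1, hz, hv⟩ := mem_convexHull_iff_exists_fintype.1 hvK
    choose F hF using hz
    refine ⟨ι, hι, w, F, hw0, hw1, fun x => ?_⟩
    have h1 := hvU x
    rw [← hv] at h1
    simp only [Finset.sum_apply, Pi.smul_apply, smul_eq_mul] at h1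
    simp only [hF]
    exact h1.le

end Pool.Agent.H76.TR
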