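import Pool.Agent.H72.TR.Stm4
import Pool.Agent.H76.TR.Minimax0

/-!
# Project TR, module MINIMAX (helper76 for helper72)
-/

set_option autoImplicit false

namespace Pool.Agent.H76.TR

theorem minimax : Pool.Agent.H72.TR.MINIMAX := fun X 𝓕 _ _ c C C' hC h => minimax0 X 𝓕 c C C' hC h

end Pool.Agent.H76.TR
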